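import Pool.Agent.X299.DR.PMain

/-!
# MP_f11a48_ag: de Rham-Betti classes and Hodge classes on the powers of a variety

Let `X` be a smooth projective variety over an algebraically closed field `K ⊂ ℂ`, for example over
the field of algebraic numbers. Call a rational class on a power of `X` common, if it is a de
Rham-Betti class, a Hodge class, and an `ℓ`-adic Tate class for all `ℓ` (for a model over a finitely
generated field). The classes of algebraic cycles are common.

1. Either all de Rham-Betti classes on all powers of `X` are common (in particular they are Hodge
classes, so that the torsor `Ω^dRB` is stable under the Mumford-Tate group), or the quotient of the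
dimensions of the spaces of the common classes and of the de Rham-Betti classes on `X^n` tends to
zero.
2. Either all Hodge classes on all powers of `X` are common (in particular they are de Rham-Betti
classes, and Tate classes for all `ℓ`), or the quotient of the dimensions of the spaces of the
common classes and of the Hodge classes on `X^n` tends to zero.
-/

set_option autoImplicit false

open CategoryTheory AlgebraicGeometry Filter Topology

universe u v w

namespace Pool.Agent.Results.MP_f11a48_ag.DeRhamBettiLaw

open Pool.Agent.H914 Pool.Agent.H914.VarClass Pool.Agent.Y129 Pool.Agent.Y121.AHS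
  Pool.Agent.X299

theorem result {k : Type u} [Field k] {𝒱 : VarClass k} {ops : CycleOps 𝒱}
    (T : HodgeTheory ops) (P : Periods T) (hP : IsAlgClosed P.V.K) (X : 𝒱.Obj)
    [Nontrivial (T.W.H X)] {I : Type v} (θ : I → GaloisTheory.{u, w} T X) :
    (∀ n j z, (pw X n).IsCyc j z → IsCommon P θ n j (T.W.cl (pw X n) z)) ∧
    ((∀ n j x, IsDRB P (pw X n) j x → IsCommon P θ n j x) ∨
      Tendsto (fun n => (dimAll T.W.K (IsCommon P θ n) : ℝ) /
        dimAll T.W.K (IsDRB P (pw X n))) atTop (𝓝 0)) ∧
    ((∀ n j x, IsHodge T (pw X n) j x → IsCommon P θ n j x) ∨
      Tendsto (fun n => (dimAll T.W.K (IsCommon P θ n) : ℝ) /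
        dimAll T.W.K (IsHodge T (pw X n))) atTop (𝓝 0)) :=
  ⟨common_cl P θ, drb_law P θ, hodge_drb_law P θ⟩

end Pool.Agent.Results.MP_f11a48_ag.DeRhamBettiLaw
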