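import Pool.Agent.X306.RL.Main

/-!
# Subtorsors containing the periods of `M_0 ⊕ M_1`, for elliptic curves `M_1` and an arbitrary motive `M_0`

Let `E_c = ℂ / Λ_c` (`c` in a finite set `C`) be pairwise non-isogenous elliptic curves over the field `ℚ̄` of algebraic
numbers without complex multiplication, and let

  `M_1 = ⨁_c [ℤ^(R c) → E_c] ⊕ [ℤ^J → 𝔾ₘ]`

be the sum of the 1-motives given by points `P_{c,r}` of `E_c(ℚ̄)`, linearly independent over `ℤ`, and by multiplicatively
independent algebraic numbers `α_j`. For `R c = J = ∅` this is the sum of the `h_1(E_c)` and of `ℚ(1)`, a pure motive. Let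
`M_0` be an ARBITRARY de Rham-Betti object over `ℚ̄`, for example the realisation of any motive, given by its period matrix
`C₀` (any invertible complex matrix; rows: Betti side, columns: de Rham side). No relation between the periods of `M_0` and
those of `M_1` is assumed or excluded.

A `ℚ̄`-subtorsor `T` is a set of invertible matrices, closed under `x y⁻¹ z` and defined by polynomials over `ℚ̄`. The
smallest one which contains the period matrix of `M = M_0 ⊕ M_1` is `Ω_M`, another one is the de Rham-Betti torsor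
`Ω^dRB_M`, whose group is defined over `ℚ`.

**Theorem.** Let `k = ℚ̄` and `C` have at most one element; or let `k = ℚ` and suppose that the group of `T` (the matrices
`x y⁻¹`, `x, y ∈ T`) is defined over `ℚ`.

1. If for no `c` the Lie algebra object `sl(h_1(E_c)) = Sym² h^1(E_c)(1)` is a quotient of a Lie subalgebra object of
`End(M_0)` (with coefficients in `k` on the Betti side), then every `ℚ̄`-subtorsor `T` which contains the period matrix of
`M_0 ⊕ M_1` is stable under the group of the matrices `1 ⊕ block X Y 1 0` with `det X_c = 1` and arbitrary `Y`.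

2. The hypothesis in 1 holds for all iterated extensions `M_0` of objects of rank one over `ℚ̄`, that is if `A C₀ B` is
upper triangular for invertible matrices `A`, `B` over `ℚ̄`. Examples: all mixed Tate motives over `ℚ̄` (periods: multiple
zeta values, polylogarithms at algebraic points), all motives of CM type, and all iterated extensions of these.

Consequences. The matrices `1 ⊕ block X Y 1 0` with `det X_c = 1` form the kernel of the map from the motivic Galois group of
`M_1` to that of `[ℤ^J → 𝔾ₘ]` (André: this is the Mumford-Tate group). So for `M = M_0 ⊕ M_1` as in 1 or 2 and `J = ∅`: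
`Ω^dRB_M` is the fibre product of `Ω^dRB` of `M_0 ⊕ ℚ(1)` and of the motivic torsor of `M_1` over `𝔾ₘ`; the motivic torsors
are contained in such fibre products. Hence `Ω^dRB = Ω^And` for `M` if (and only if) this is so for `M_0 ⊕ ℚ(1)`, and if
`C` has one element the same holds for the smallest torsor: `Ω_M = Ω^And_M` if and only if this is so for `M_0 ⊕ ℚ(1)`.
If `M_0` is a pure motive and all `R c` are empty, this is about pure motives. If `M_0 = 0` we get `Ω_M = Ω^mot_M` for the
1-motives `[ℤ^r → E]`.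

Proof. The Lie algebra `L` of `T` is closed under commutators (`Pool/Agent/X306/RL/Br.lean`), is rational over `k` on the
Betti side and over `ℚ̄` on the de Rham side and contains the logarithmic derivatives of the period matrix
(`Pool/Agent/Y123/ST`, helper123). By the transcendence theorems of Baker, Masser and Bertrand-Masser, and for several curves
Schneider-Lang (`Pool/Agent/X306/EM`, all proved in Lean), its projection to `End(M_1)` is the Lie algebra of the motivic
group. The kernel of the projection of `L` to `End(M_0)` is an ideal in it. If its projection to some `sl₂` vanishes then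
`L` is the graph of a homomorphism to `sl(h_1(E_c))` on the image of `L` in `End(M_0)`, otherwise the kernel contains all
`sl₂` and the unipotent part. For 2, the images in `sl(h_1(E_c))` of the steps of the filtration of `End(M_0)` would contain
a line which is defined over `ℚ̄` on both sides; its normaliser would be a proper subalgebra of `sl₂`, defined over `ℚ̄` on
both sides, which contains the logarithmic derivatives.
-/

set_option autoImplicit false

open scoped PeriodPair
open Matrix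

noncomputable section

namespace Pool.Agent.Results.MP_f11a48_ag.EllipticOverArbitraryMotive

/-- The Weierstrass zeta function `ζ(z) = ∑ (1/(z-l) + 1/l + z/l²)`, the sum over the lattice (the summand of `l = 0` is
`1/z`, since `1/0 = 0` in Lean). -/
def ζ (L : PeriodPair) (z : ℂ) : ℂ := ∑' l : L.lattice, (1 / (z - l) + 1 / l + z / l ^ 2)

/-- The quasi-period `η(w) = ζ(z + w) - ζ(z)` of `w ∈ Λ` (for `z = ω₁ / 2`, which is not in the lattice). -/
def η (L : PeriodPair) (w : ℂ) : ℂ := ζ L (L.ω₁ / 2 + w) - ζ L (L.ω₁ / 2)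

/-- The rows (Betti side) and columns (de Rham side) of the period matrix of `M_1`: for each curve `c` two cycles and the
paths from `0` to the points `P_{c,r}`; the circle, and the paths from `1` to `α_j`. -/
abbrev Idx (C : Type) (R : C → Type) (J : Type) : Type := (Σ c : C, Fin 2 ⊕ R c) ⊕ (Unit ⊕ J)

variable {C : Type} [Fintype C] [DecidableEq C] {R : C → Type} [∀ c, Fintype (R c)] [∀ c, DecidableEq (R c)]
  {J : Type} [Fintype J] [DecidableEq J]

/-- The block diagonal matrix with the blocks `(X_c, 0; Y_c, 1)` for `c ∈ C` and `(μ, 0; v, 1)`. -/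
def block (X : C → Matrix (Fin 2) (Fin 2) ℂ) (Y : (c : C) → Matrix (R c) (Fin 2) ℂ) (μ : ℂ) (v : J → ℂ) :
    Matrix (Idx C R J) (Idx C R J) ℂ :=
  fromBlocks (blockDiagonal' fun c => fromBlocks (X c) 0 (Y c) 1) 0 0
    (fromBlocks (Matrix.of fun _ _ => μ) 0 (Matrix.of fun j _ => v j) 1)

/-- The period matrix `(ω₁, η₁; ω₂, η₂)` of an elliptic curve. -/
def ellipticPeriods (L : PeriodPair) : Matrix (Fin 2) (Fin 2) ℂ := !![L.ω₁, η L L.ω₁; L.ω₂, η L L.ω₂]

/-- The period matrix of `M_1`. -/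
def periodMatrix (L : C → PeriodPair) (u : (c : C) → R c → ℂ) (l : J → ℂ) : Matrix (Idx C R J) (Idx C R J) ℂ :=
  block (fun c => ellipticPeriods (L c)) (fun c => Matrix.of fun r => ![u c r, ζ (L c) (u c r)])
    (2 * Real.pi * Complex.I) l

/-- `T` is the set of the complex points of a nonempty subtorsor over the algebraic numbers: a set of invertible
matrices, closed under `x y⁻¹ z`, defined by polynomials with algebraic coefficients. -/
def IsTorsor {B : Type} [Fintype B] [DecidableEq B] (T : Set (Matrix B B ℂ)) : Prop :=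
  (∀ x ∈ T, ∀ y ∈ T, ∀ z ∈ T, x * y⁻¹ * z ∈ T) ∧
  ∃ I : Set (MvPolynomial (B × B) ℂ), (∀ p ∈ I, ∀ m, IsAlgebraic ℚ (p.coeff m)) ∧
    ∀ x : Matrix B B ℂ, x ∈ T ↔ IsUnit x ∧ ∀ p ∈ I, MvPolynomial.eval (fun b => x b.1 b.2) p = 0

/-- The group of the matrices `x y⁻¹`, `x, y ∈ T`, is defined by polynomials with rational coefficients. -/
def GroupOverQ {B : Type} [Fintype B] [DecidableEq B] (T : Set (Matrix B B ℂ)) : Prop :=
  ∃ I : Set (MvPolynomial (B × B) ℂ), (∀ p ∈ I, ∀ m, ∃ q : ℚ, p.coeff m = q) ∧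
    ∀ g : Matrix B B ℂ, (∃ x ∈ T, ∃ y ∈ T, g = x * y⁻¹) ↔ IsUnit g ∧
      ∀ p ∈ I, MvPolynomial.eval (fun b => g b.1 b.2) p = 0

variable {m : ℕ}

/-- The Lie algebra object of the traceless endomorphisms of the object with period matrix `P` is a quotient of a Lie
subalgebra object of the endomorphisms of the object with period matrix `C₀`, with coefficients in `k` on the Betti side:
`Γ` is the graph of the homomorphism (complexified, on the Betti side); it is a Lie subalgebra, spanned by pairs of matrices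
over `k`, and also by pairs of matrices which come from matrices over the algebraic numbers on the de Rham side. -/
def HasQuotient (k : Subfield ℂ) (C₀ : Matrix (Fin m) (Fin m) ℂ) (P : Matrix (Fin 2) (Fin 2) ℂ) : Prop :=
  ∃ Γ : Submodule ℂ (Matrix (Fin m) (Fin m) ℂ × Matrix (Fin 2) (Fin 2) ℂ),
    (∀ x, (0, x) ∈ Γ → x = 0) ∧ (∀ x, x.trace = 0 ↔ ∃ y, (y, x) ∈ Γ) ∧
    (∀ p ∈ Γ, ∀ q ∈ Γ, (p.1 * q.1 - q.1 * p.1, p.2 * q.2 - q.2 * p.2) ∈ Γ) ∧
    Γ ≤ Submodule.span ℂ {p | p ∈ Γ ∧ (∀ i j, p.1 i j ∈ k) ∧ ∀ i j, p.2 i j ∈ k} ∧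
    Γ ≤ Submodule.span ℂ {p | p ∈ Γ ∧ (∀ i j, IsAlgebraic ℚ ((C₀⁻¹ * p.1 * C₀) i j)) ∧
      ∀ i j, IsAlgebraic ℚ ((P⁻¹ * p.2 * P) i j)}

/-- The object with period matrix `C₀` is an iterated extension of objects of rank one: for suitable algebraic bases the
period matrix is upper triangular. -/
def IsTriangular (C₀ : Matrix (Fin m) (Fin m) ℂ) : Prop :=
  ∃ A A' B B' : Matrix (Fin m) (Fin m) ℂ, (∀ i j, IsAlgebraic ℚ (A i j) ∧ IsAlgebraic ℚ (A' i j) ∧
    IsAlgebraic ℚ (B i j) ∧ IsAlgebraic ℚ (B' i j)) ∧ A * A' = 1 ∧ B * B' = 1 ∧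
    ∀ i j, j < i → (A * C₀ * B) i j = 0

/-- **Elliptic curves over an arbitrary motive.** `C₀` is any invertible matrix, the other data are as in the text above:
`L c` are lattices with algebraic invariants, without complex multiplication and pairwise non-isogenous, `u c r` are
elliptic logarithms of algebraic points of `E_c` which are linearly independent over `ℤ`, `l j` are logarithms of
multiplicatively independent algebraic numbers. -/
theorem result (C₀ : Matrix (Fin m) (Fin m) ℂ) (h₀ : IsUnit C₀)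
    (L : C → PeriodPair) (hg : ∀ c, IsAlgebraic ℚ (L c).g₂ ∧ IsAlgebraic ℚ (L c).g₃)
    (hCM : ∀ c, ∀ α : ℂ, (∀ w ∈ (L c).lattice, α * w ∈ (L c).lattice) → ∃ n : ℤ, α = n)
    (hiso : ∀ c c', c ≠ c' → ∀ α : ℂ, (∀ w ∈ (L c).lattice, α * w ∈ (L c').lattice) → α = 0)
    (u : (c : C) → R c → ℂ) (hu : ∀ c r, u c r ∉ (L c).lattice ∧ IsAlgebraic ℚ (℘[L c] (u c r)))
    (hui : ∀ c, ∀ n : R c → ℤ, ∑ r, (n r : ℂ) * u c r ∈ (L c).lattice → n = 0)
    (l : J → ℂ) (hl : ∀ j, IsAlgebraic ℚ (Complex.exp (l j)))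
    (hli : ∀ n : J → ℤ, Complex.exp (∑ j, (n j : ℂ) * l j) = 1 → n = 0)
    (T : Set (Matrix (Fin m ⊕ Idx C R J) (Fin m ⊕ Idx C R J) ℂ)) (hT : IsTorsor T) (k : Subfield ℂ)
    (hk : ((∀ z, z ∈ k ↔ ∃ q : ℚ, z = q) ∧ GroupOverQ T) ∨ ((∀ z, z ∈ k ↔ IsAlgebraic ℚ z) ∧ Subsingleton C))
    (hc : fromBlocks C₀ 0 0 (periodMatrix L u l) ∈ T) :
    ((∀ c, ¬ HasQuotient k C₀ (ellipticPeriods (L c))) → ∀ (X : C → Matrix (Fin 2) (Fin 2) ℂ)
      (Y : (c : C) → Matrix (R c) (Fin 2) ℂ), (∀ c, (X c).det = 1) → ∀ x ∈ T, fromBlocks 1 0 0 (block X Y 1 0) * x ∈ T) ∧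
    (IsTriangular C₀ → ∀ c, ¬ HasQuotient k C₀ (ellipticPeriods (L c))) := by
  have hT' : Pool.Agent.TH127.PT.IsSubtorsor Pool.Agent.W245.EB.QB T := by
    obtain ⟨h1, I, h2, h3⟩ := hT
    exact ⟨fun x hx => ((h3 x).1 hx).1, h1, I, fun p hp m => Pool.Agent.W245.EB.mem_QB.2 (h2 p hp m), h3⟩
  have hQB : ∀ z : ℂ, z ∈ Pool.Agent.W245.EB.QB ↔ IsAlgebraic ℚ z := fun z => Pool.Agent.W245.EB.mem_QB
  have hkQ : k ≤ Pool.Agent.W245.EB.QB := by
    intro z hz
    rcases hk with ⟨h, _⟩ | ⟨h, _⟩
    · exact Pool.Agent.X306.EM.QQ_le (Pool.Agent.X306.EM.mem_QQ.2 (by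
        obtain ⟨q, hq⟩ := (h z).1 hz
        exact ⟨q, hq.symm⟩))
    · exact (hQB z).2 ((h z).1 hz)
  set D := Pool.Agent.X306.EM.pers L u l with hD
  have hpm : periodMatrix L u l = Pool.Agent.TH119.MX.pm D := by
    unfold periodMatrix block Pool.Agent.TH119.MX.pm Pool.Agent.TH119.MX.bm
    simp only [one_smul]
    congr 1
  have hPinv : ∀ c, (ellipticPeriods (L c))⁻¹ = D.P' c := fun c => Matrix.inv_eq_right_inv (D.PP' c)
  have hC₀ : C₀ * C₀⁻¹ = 1 := Pool.Agent.X306.RL.c0_inv h₀
  have hC₀' : C₀⁻¹ * C₀ = 1 := Pool.Agent.X306.RL.inv_c0 h₀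
  refine ⟨fun hno X Y hX x hx => ?_, fun htri c hq => ?_⟩
  · have hF : Pool.Agent.TH119.DR.DefOver k (Pool.Agent.Y123.ST.LL T) := by
      rcases hk with ⟨h, I, hI1, hI2⟩ | ⟨h, _⟩
      · refine Pool.Agent.X306.RL.LL_defF hT' ⟨I, fun p hp m => ?_, hI2⟩ hc
        exact (h _).2 (hI1 p hp m)
      · have e : k = Pool.Agent.W245.EB.QB := by
          ext z
          rw [h, hQB]
        rw [e]
        exact Pool.Agent.Y123.ST.LL_def hT'
    have hor : k = Pool.Agent.X306.EM.QQ ∨ Subsingleton C := by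
      rcases hk with ⟨h, _⟩ | ⟨_, h⟩
      · left
        ext z
        rw [h, Pool.Agent.X306.EM.mem_QQ]
        exact ⟨fun ⟨q, hq⟩ => ⟨q, hq.symm⟩, fun ⟨q, hq⟩ => ⟨q, hq.symm⟩⟩
      · exact Or.inr h
    have hc' : Pool.Agent.X306.RL.cm D C₀ ∈ T := by
      rw [hpm] at hc
      exact hc
    have hmem := Pool.Agent.X306.RL.rel_main (fun c => (hg c).1) (fun c => (hg c).2) hCM hiso hu hui hl hli h₀ hT'
      hkQ hF hor hc' (fun c Γ hΓ => hno c ⟨Γ, hΓ.inj, fun x => ⟨hΓ.surj x, fun ⟨y, hy⟩ => hΓ.tr _ hy⟩, hΓ.br,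
        Pool.Agent.X306.RL.span_of_map hΓ.hF, ?_⟩) hX Y
    · have h1 := hmem x hx
      refine (congrArg (fun g => fromBlocks 1 0 0 g * x ∈ T) ?_).mp h1
      unfold block Pool.Agent.TH119.MX.bm
      simp only [one_smul]
    · have h1 := Pool.Agent.X306.RL.span_of_map' hC₀ hC₀' (D.PP' c) (D.P'P c) hΓ.hK
      refine h1.trans (Submodule.span_mono ?_)
      rintro p ⟨hp1, hp2, hp3⟩
      refine ⟨hp1, fun i j => (hQB _).1 (hp2 i j), fun i j => ?_⟩
      rw [hPinv]
      exact (hQB _).1 (hp3 i j)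
  · obtain ⟨A, A', B, B', halg, hA, hB, hU⟩ := htri
    obtain ⟨Γ, hinj, hsurj, hbr, hF, hK⟩ := hq
    have hΓ : Pool.Agent.X306.RL.Cpl k Pool.Agent.W245.EB.QB C₀ (ellipticPeriods (L c)) (D.P' c) Γ := by
      refine ⟨hinj, fun p hp => (hsurj p.2).2 ⟨p.1, hp⟩, fun x hx => (hsurj x).1 hx, hbr,
        fun f p hp => Pool.Agent.X306.RL.map_of_span hF f hp,
        fun f p hp => Pool.Agent.X306.RL.map_of_span' hC₀ hC₀' (D.PP' c) (D.P'P c) ?_ f hp⟩
      refine hK.trans (Submodule.span_mono ?_)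
      rintro p ⟨hp1, hp2, hp3⟩
      refine ⟨hp1, fun i j => (hQB _).2 (hp2 i j), fun i j => ?_⟩
      rw [← hPinv]
      exact (hQB _).2 (hp3 i j)
    exact Pool.Agent.X306.RL.rel_no_cpl (fun c => (hg c).1) (fun c => (hg c).2) hCM hkQ c h₀ hA
      (fun i j => (hQB _).2 (halg i j).1) (fun i j => (hQB _).2 (halg i j).2.1) hB
      (fun i j => (hQB _).2 (halg i j).2.2.1) (fun i j => (hQB _).2 (halg i j).2.2.2) hU rfl (D.PP' c) hΓ

end Pool.Agent.Results.MP_f11a48_ag.EllipticOverArbitraryMotive
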