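import Pool.Agent.X297.GP.Main

/-!
# The numbers of de Rham-Betti classes and of algebraic cycles on the powers of a variety with
# diagonal periods

Let `Y` be a smooth projective variety over the field of algebraic numbers, such that the Betti
cohomology of `Y` with algebraic coefficients is spanned by homogeneous classes `c` such that
`ω c` lies in the algebraic de Rham cohomology for a number `ω`: for instance an abelian
variety with complex multiplication, simple or not, a Fermat hypersurface, or a product of such
varieties. Let `b = ∑ dim H^i(Y)`, and let `r` be the rank of the group generated by the numbers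
`ω ^ 2 / (2 π i) ^ i`, where `ω` is a period of degree `i`, modulo the multiplicative group of the
field of algebraic numbers. Let `t n` be the number of linearly independent de Rham-Betti classes
(with algebraic coefficients, of all codimensions) on `Y ^ (n + 1)`, and `a n` the rank of the group
of all algebraic cycles on `Y ^ (n + 1)` modulo numerical equivalence. Then there are a real number
`C > 0` and `N ∈ {1, 2, …, ∞}` with

`t n ∼ C b ^ (n + 1) / (n + 1) ^ (r / 2)`,  `a n * (n + 1) ^ (r / 2) / b ^ (n + 1) ⟶ C / N`,

and `N = 1` if and only if all de Rham-Betti classes on all powers of `Y` are algebraic.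
-/

open CategoryTheory AlgebraicGeometry Filter Topology

open scoped ENNReal

universe u v

namespace Pool.Agent.Results.MP_f11a48_ag.GrowthLawPeriods

open Pool.Agent.H914 Pool.Agent.H914.VarClass Pool.Agent.H914.VarClass.Obj
  Pool.Agent.H914.WeilCohomology Pool.Agent.X297.GP Pool.Agent.Y133.Per
open Pool.Agent.Y129 (pw)
open Pool.Agent.Y133.Half (cycRank)

theorem result {k : Type u} [Field k] {𝒱 : VarClass k} {ops : CycleOps 𝒱}
    (W : WeilCohomology.{u, v} ops) [Algebra W.K ℂ] {F : Subfield ℂ} [IsAlgClosed F]
    (D : DeRham W F) (Y : 𝒱.Obj) [Nontrivial (W.H Y)] (h : IsDiagonal D Y) {b r : ℕ}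
    (hb : b = Module.finrank W.K (W.H Y)) (hr : r = periodRank D Y) :
    ∃ (C : ℝ) (N : ℕ∞), 0 < C ∧ 1 ≤ N ∧
      Tendsto (scaled b r fun n => drbDim D (pw Y n)) atTop (𝓝 C) ∧
      Tendsto (scaled b r fun n => cycRank ops (pw Y n)) atTop
        (𝓝 (C * ((N : ℝ≥0∞)⁻¹).toReal)) ∧
      (N = 1 ↔ ∀ n j, GPC D (pw Y n) j) :=
  main h hb hr

end Pool.Agent.Results.MP_f11a48_ag.GrowthLawPeriods
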