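import Pool.Agent.Y123.ST.Out
import Pool.Agent.Y123.ST.Cl2

/-!
# Quadratic relations decide: if there are no unexpected quadratic relations between the periods, then the smallest
# subtorsor containing the period matrix is the torsor of motivated periods

Let `K` be a field of algebraic numbers and `M = M_1 ⊕ … ⊕ M_N` a sum of polarised de Rham-Betti objects of odd weight
and of the same rank `n`: for `M_j` the polarisation is given by matrices `Q_j` over `K` (on the de Rham side) and `polB n`
(on the Betti side; every nondegenerate alternating form over `ℚ` has this matrix in some basis), and the period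
matrix `c_j` satisfies `c_j Q_j c_jᵀ = l polB` with a transcendental number `l = (2πi)^w`. For a motive `M` the
polarisations are motivated classes, so that `Z_M ⊆ Ω_M ⊆ Ω^dRB_M ⊆ Ω^And_M ⊆ polTorsor Q`.

**Theorem.** Suppose that no `c_j` is a complex number times a matrix of algebraic numbers, and that all `K`-linear relations
between the products of TWO entries of the matrices `c_1, …, c_N` are consequences of the polarisations. Then

1. `Ω_M = polTorsor Q`: there are no relations of any degree which come from `K`-subtorsors (from tensors or from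
subobjects of tensor constructions), and `Ω_M = Ω^dRB_M = Ω^And_M`;
2. for all finite sets `κ` and all `m` the de Rham-Betti classes in `M^{⊗ κ}(m)` are the rational linear combinations of the
products of the polarisations; so for a product of abelian varieties all de Rham-Betti classes on all powers are
combinations of intersections of divisors.

The first hypothesis holds for the abelian varieties over the field of algebraic numbers, by the theorem of Wüstholz (or
Schneider).

The starting result `HyperellipticSmallestSubtorsor` has 1 under the assumption that there are no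
unexpected relations of degree at most `d`, where `d` depends on `n` in an unspecified way (by the theorem of
Jordan on finite linear groups). Here the degree is two, for all `n`, `N` and `K`. Relations of degree one are not enough: if
`p` is a generic matrix of size two then the periods of `Sym³ p` (of rank four) have no linear relations.

The proof is in `Pool/Agent/Y123/ST` (`full`, `cls_iff_span`; a development of the starting library which no starting result
uses in this form): the Lie algebra `L` of a subtorsor which contains `c` is rational over `K` on the Betti side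
and on the de Rham side. As `c⁻¹ = l⁻¹ Q cᵀ polB⁻¹` up to the normalisation, the equations which say that `c⁻¹ L c` is contained in
the Lie algebra of the de Rham side are quadratic in `c`, and so they hold on the whole torsor; hence `L` is stable under
the product of the symplectic groups and is the sum of some of the symplectic Lie algebras and of a space of scalars. It contains the
logarithmic derivatives of `c` with respect to the derivations of `ℂ` over `K`; as `c_j` is not algebraic up to a scalar, the
`j`-th symplectic Lie algebra is contained in `L`.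
-/

set_option autoImplicit false

open Matrix

namespace Pool.Agent.Results.MP_f11a48_ag.QuadraticRelations

/-- `T` is (the set of complex points of) a `K`-subtorsor of `GL_B = Iso (M_dR, M_B)`: it is closed under `x y⁻¹ z`, and
it is defined in `GL_B` by polynomials with coefficients in `K`. -/
def IsSubtorsor (K : Subfield ℂ) {B : Type} [Fintype B] [DecidableEq B] (T : Set (Matrix B B ℂ)) : Prop :=
  (∀ x ∈ T, ∀ y ∈ T, ∀ z ∈ T, x * y⁻¹ * z ∈ T) ∧ ∃ I : Set (MvPolynomial (B × B) K), ∀ x : Matrix B B ℂ, x ∈ T ↔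
    IsUnit x ∧ ∀ p ∈ I, MvPolynomial.eval (fun b => x b.1 b.2) (MvPolynomial.map (algebraMap K ℂ) p) = 0

/-- `Ω` is the smallest `K`-subtorsor which contains the period matrix `c`. -/
def IsOmega (K : Subfield ℂ) {B : Type} [Fintype B] [DecidableEq B] (c : Matrix B B ℂ) (Ω : Set (Matrix B B ℂ)) : Prop :=
  IsSubtorsor K Ω ∧ c ∈ Ω ∧ ∀ T : Set (Matrix B B ℂ), IsSubtorsor K T → c ∈ T → Ω ⊆ T

/-- The alternating form with entries `2 (-1)^r` at `(r, s)`, `|r - s| = 1`. -/
def polB (n : ℕ) : Matrix (Fin n) (Fin n) ℚ :=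
  Matrix.of fun r s => if (r : ℕ) = s + 1 ∨ (s : ℕ) = r + 1 then 2 * (-1) ^ (r : ℕ) else 0

/-- `(X_1, …, X_N)` respects the polarisations, with multiplier `μ`. -/
def Respects {n N : ℕ} (Q : Fin N → Matrix (Fin n) (Fin n) ℂ) (X : Fin N → Matrix (Fin n) (Fin n) ℂ) (μ : ℂ) : Prop :=
  ∀ j, X j * Q j * (X j)ᵀ = μ • (polB n).map (algebraMap ℚ ℂ)

/-- The torsor of the block diagonal matrices which respect the polarisations, with the same multiplier. -/
def polTorsor {n N : ℕ} (Q : Fin N → Matrix (Fin n) (Fin n) ℂ) : Set (Matrix (Fin n × Fin N) (Fin n × Fin N) ℂ) :=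
  {x | ∃ (X : Fin N → Matrix (Fin n) (Fin n) ℂ) (μ : ℂ), μ ≠ 0 ∧ x = Matrix.blockDiagonal X ∧ Respects Q X μ}

/-- The value at the matrices `X_j` of the quadratic form with coefficients `a` in the entries of `N` matrices. -/
noncomputable def quadValue {n N : ℕ} {K : Subfield ℂ} (a : Fin N × Fin n × Fin n → Fin N × Fin n × Fin n → K)
    (X : Fin N → Matrix (Fin n) (Fin n) ℂ) : ℂ :=
  ∑ s, ∑ t, (a s t : ℂ) * (X s.1 s.2.1 s.2.2 * X t.1 t.2.1 t.2.2)

/-- All `K`-linear relations between the products of two entries of the matrices `c_j` are consequences of the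
polarisations. -/
def NoQuadraticRelation {n N : ℕ} (K : Subfield ℂ) (Q c : Fin N → Matrix (Fin n) (Fin n) ℂ) : Prop :=
  ∀ a : Fin N × Fin n × Fin n → Fin N × Fin n × Fin n → K, quadValue a c = 0 →
    ∀ (X : Fin N → Matrix (Fin n) (Fin n) ℂ) (μ : ℂ), μ ≠ 0 → Respects Q X μ → quadValue a X = 0

/-- The tensor `F`, with rational coordinates on the Betti side, is a de Rham-Betti class in `M^{⊗ κ}(m)`: there is a
tensor `a` over `K` on the de Rham side with `c^{⊗ κ} a = l^m F`. -/
def IsDRBClass {n N : ℕ} (K : Subfield ℂ) (c : Fin N → Matrix (Fin n) (Fin n) ℂ) (l : ℂ) {κ : Type} [Fintype κ]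
    [DecidableEq κ] (m : ℕ) (F : (κ → Fin n × Fin N) → ℚ) : Prop :=
  ∃ a : (κ → Fin n × Fin N) → K, ∀ I, l ^ m * (F I : ℂ) = ∑ I', (∏ k, blockDiagonal c (I k) (I' k)) * (a I' : ℂ)

/-- The product of the polarisations of `M_{b_1}, …, M_{b_m}`, distributed over the places in `κ` by the bijection `e`. -/
def polProduct (n : ℕ) {N : ℕ} {κ : Type} {m : ℕ} (e : Fin m × Fin 2 ≃ κ) (b : Fin m → Fin N) :
    (κ → Fin n × Fin N) → ℚ :=
  fun I => ∏ l, if (I (e (l, 0))).2 = b l ∧ (I (e (l, 1))).2 = b l then
    polB n (I (e (l, 0))).1 (I (e (l, 1))).1 else 0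

section aux

open Pool.Agent.Y123.ST Pool.Agent.Y118.HP

/-- A homogeneous polynomial of degree two is a quadratic form. -/
theorem exists_quad {σ : Type} [Fintype σ] [DecidableEq σ] {K : Subfield ℂ} (P : MvPolynomial σ ℂ) (hP : ∀ m, P.coeff m ∈ K)
    (h2 : P.IsHomogeneous 2) : ∃ a : σ → σ → K, ∀ x : σ → ℂ, MvPolynomial.eval x P = ∑ s, ∑ t, (a s t : ℂ) * (x s * x t) := by
  classical
  have hp : ∀ m ∈ P.support, ∃ p : σ × σ, m = Finsupp.single p.1 1 + Finsupp.single p.2 1 := by
    intro m hm
    have h3 : m.degree = 2 := by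
      rw [Finsupp.degree_eq_weight_one]
      exact h2 (MvPolynomial.mem_support_iff.1 hm)
    have h4 : (Finsupp.toMultiset m).card = 2 := by
      rw [Finsupp.card_toMultiset]
      exact h3
    obtain ⟨s, t, hst⟩ := Multiset.card_eq_two.1 h4
    refine ⟨(s, t), ?_⟩
    have h5 := congrArg Multiset.toFinsupp hst
    rw [Finsupp.toMultiset_toFinsupp] at h5
    rw [h5]
    have : ({s, t} : Multiset σ) = {s} + {t} := rfl
    rw [this, map_add, Multiset.toFinsupp_singleton, Multiset.toFinsupp_singleton]
  rcases isEmpty_or_nonempty σ with hσ | hσ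
  · refine ⟨fun s => isEmptyElim s, fun x => ?_⟩
    have h0 : P.support = ∅ := by
      rw [Finset.eq_empty_iff_forall_notMem]
      intro m hm
      obtain ⟨q, -⟩ := hp m hm
      exact isEmptyElim q.1
    rw [MvPolynomial.eval_eq', h0]
    simp
  choose! p hp' using hp
  refine ⟨fun s t => ∑ m ∈ P.support.filter (fun m => p m = (s, t)), ⟨P.coeff m, hP m⟩, fun x => ?_⟩
  have h6 : ∀ s t, (((∑ m ∈ P.support.filter (fun m => p m = (s, t)), (⟨P.coeff m, hP m⟩ : K)) : K) : ℂ) =
      ∑ m ∈ P.support, if p m = (s, t) then P.coeff m else 0 := by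
    intro s t
    rw [Finset.sum_filter]
    push_cast
    refine Finset.sum_congr rfl fun m _ => ?_
    split_ifs <;> simp
  simp only [h6, Finset.sum_mul]
  rw [MvPolynomial.eval_eq']
  have h7 : ∀ s : σ, ∑ t, ∑ m ∈ P.support, (if p m = (s, t) then P.coeff m else 0) * (x s * x t) =
      ∑ m ∈ P.support, ∑ t, (if p m = (s, t) then P.coeff m else 0) * (x s * x t) := fun s => Finset.sum_comm
  simp only [h7]
  rw [Finset.sum_comm]
  refine Finset.sum_congr rfl fun m hm => ?_
  rw [← Fintype.sum_prod_type' (f := fun s t => (if p m = (s, t) then P.coeff m else 0) * (x s * x t))]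
  rw [Finset.sum_eq_single (p m)]
  · rw [if_pos rfl]
    congr 1
    conv_lhs => rw [hp' m hm]
    rw [← MvPolynomial.eval_X (f := x) (n := (p m).1), ← MvPolynomial.eval_X (f := x) (n := (p m).2), ← map_mul]
    have h8 : (MvPolynomial.X (p m).1 * MvPolynomial.X (p m).2 : MvPolynomial σ ℂ) =
        MvPolynomial.monomial (Finsupp.single (p m).1 1 + Finsupp.single (p m).2 1) 1 := by
      rw [MvPolynomial.X, MvPolynomial.X, MvPolynomial.monomial_mul, one_mul]
    rw [h8, MvPolynomial.eval_monomial, one_mul, Finsupp.prod_fintype _ _ (fun i => pow_zero _)]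
  · rintro ⟨s, t⟩ - hne
    rw [if_neg (fun h => hne h.symm), zero_mul]
  · intro h
    exact absurd (Finset.mem_univ _) h

theorem noquad_of {n N : ℕ} {K : Subfield ℂ} {Q c : Fin N → Matrix (Fin n) (Fin n) ℂ} (h : NoQuadraticRelation K Q c) :
    NoQuad K (fun j => (-1 / 2 : ℂ) • Q j) c := by
  intro P hP h2 h0 x hx
  obtain ⟨a, ha⟩ := exists_quad P hP h2
  rw [ha] at h0 ⊢
  exact h a h0 x.1 x.2 hx.1 fun j => rel_iff.2 (hx.2 j)

end aux

open Pool.Agent.Y123.ST Pool.Agent.Y118.HP in
/-- **Quadratic relations decide.** -/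
theorem result (n N : ℕ) (hn : Even n) (hn0 : 0 < n) (hN : 0 < N) (K : Subfield ℂ) (hK : ∀ x ∈ K, IsAlgebraic ℚ x)
    (Q c : Fin N → Matrix (Fin n) (Fin n) ℂ) (hQ : ∀ j a b, Q j a b ∈ K) (l : ℂ) (hl : Transcendental ℚ l)
    (hc : Respects Q c l)
    (hnon : ∀ j, ¬ ∃ (ν : ℂ) (a : Matrix (Fin n) (Fin n) ℂ), (∀ i k, IsAlgebraic ℚ (a i k)) ∧ c j = ν • a)
    (hquad : NoQuadraticRelation K Q c) :
    IsOmega K (Matrix.blockDiagonal c) (polTorsor Q) ∧
    ∀ (κ : Type) [Fintype κ] [DecidableEq κ] (m : ℕ) (F : (κ → Fin n × Fin N) → ℚ),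
      IsDRBClass K c l m F ↔
        F ∈ Submodule.span ℚ {G | ∃ (e : Fin m × Fin 2 ≃ κ) (b : Fin m → Fin N), G = polProduct n e b} := by
  have hl0 : l ≠ 0 := by
    rintro rfl
    exact hl isAlgebraic_zero
  have hc' : (c, l) ∈ Tor (fun j => (-1 / 2 : ℂ) • Q j) := ⟨hl0, fun j => rel_iff.1 (hc j)⟩
  have hq := noquad_of hquad
  refine ⟨⟨?_, ⟨c, l, hl0, rfl, hc⟩, fun T hT hcT => ?_⟩, fun κ _ _ m F => ?_⟩
  · have h1 : IsSubtorsor K (polTorsor Q) ↔ SubT K (TB Q) := Iff.rfl
    rw [h1, subT_iff, TB_eq]
    exact tor_sub hn hn0 hN (half_mem hQ) hc'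
  · rintro _ ⟨X, μ, hμ, rfl, hX⟩
    exact full hn hK (subT_iff.1 hT) (half_mem hQ) hc' hcT hl hnon hq (X, μ) ⟨hμ, fun j => rel_iff.1 (hX j)⟩
  · have h1 := cls_iff_span (κ := κ) (m := m) hn hn0 hN hK (half_mem hQ) hc' hl hnon hq F
    have h2 : Submodule.span ℚ {G : (κ → Fin n × Fin N) → ℚ | ∃ (e : Fin m × Fin 2 ≃ κ) (b : Fin m → Fin N), G = prB n e b} =
        Submodule.span ℚ {G | ∃ (e : Fin m × Fin 2 ≃ κ) (b : Fin m → Fin N), G = pr n e b} := by
      apply le_antisymm
      · rw [Submodule.span_le]
        rintro _ ⟨e, b, rfl⟩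
        rw [prB_eq]
        exact Submodule.smul_mem _ _ (Submodule.subset_span ⟨e, b, rfl⟩)
      · rw [Submodule.span_le]
        rintro _ ⟨e, b, rfl⟩
        have h3 : pr n e b = ((-2 : ℚ) ^ m)⁻¹ • prB n e b := by
          rw [prB_eq, smul_smul, inv_mul_cancel₀ (pow_ne_zero _ (by norm_num)), one_smul]
        rw [h3]
        exact Submodule.smul_mem _ _ (Submodule.subset_span ⟨e, b, rfl⟩)
    have h4 : Submodule.span ℚ {G : (κ → Fin n × Fin N) → ℚ | ∃ (e : Fin m × Fin 2 ≃ κ) (b : Fin m → Fin N),
        G = polProduct n e b} = Submodule.span ℚ {G | ∃ (e : Fin m × Fin 2 ≃ κ) (b : Fin m → Fin N), G = prB n e b} := rfl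
    rw [h4, h2, ← h1]
    constructor
    · rintro ⟨a, ha⟩
      exact ⟨fun I => (a I : ℂ), fun I => (a I).2, ha⟩
    · rintro ⟨a, ha, h3⟩
      exact ⟨fun I => ⟨a I, ha I⟩, h3⟩

end Pool.Agent.Results.MP_f11a48_ag.QuadraticRelations
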